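import Pool.Agent.Lib.MP_fa0334_an.AllReg
import Pool.Agent.Lib.MP_fa0334_an.Conf

/-!
Problem MP_fa0334_an, Q1: for every `p > 1` and every convex domain the problem of minimizing the
`L^p` norm of the distortion with boundary data has a diffeomorphic solution.
-/

set_option autoImplicit false

namespace Pool.Agent.Results.MP_fa0334_an.DiffeoMinimizer

/-- For every `p > 1`, convex domain `Ω`, domain `Ω'` and boundary homeomorphism `g` of finite
energy there is a `C¹` diffeomorphism of `Ω` onto `Ω'` that is admissible and minimizes the
integral of the `p`-th power of the distortion in the class of admissible maps. -/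
theorem result : MPfaS.Statement :=
  MPfa.statement_of MPfa.All.inv MPfa.All.exist MPfa.All.hopf
    (MPfa.specConf MPfa.All.alg MPfa.All.lim MPfa.All.frc MPfa.All.weyl)
    MPfa.All.nmx MPfa.All.noColl
    (MPfa.specREG MPfa.Reg.All.reg MPfa.All.invWD MPfa.All.areaInj MPfa.All.lusin MPfa.All.bph
      MPfa.All.alg)
    MPfa.All.wdu MPfa.All.frc

end Pool.Agent.Results.MP_fa0334_an.DiffeoMinimizer
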